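import Mathlib

/-!
The potential argument (proofs row 614, section 3): irregular scales are harmless.
`τ x v` is the cost rate of the tube of width `2^x` and direction `v`, `J v` its limit.
-/

namespace Pool.Agent.Qs61

open Real

/-- Hypotheses of the potential argument. -/
structure Pot (τ : ℕ → ℝ → ℝ) (J : ℝ → ℝ) (v₀ η A M C' δ C₀ c₀ : ℝ) (j₀ l : ℕ) : Prop where
  hv₀ : 0 < v₀
  hη : 0 < η
  hA : 1 < A
  hM : 1 ≤ M
  hδ : 0 < δ
  hC₀ : 0 ≤ C₀
  hc₀ : 0 < c₀
  hj₀ : 1 ≤ j₀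
  hl : 1 ≤ l
  hC' : (2 : ℝ) ^ ((2 * j₀ : ℝ) * (C₀ + 1)) ≤ C'
  hJ : ∀ v, 0 < v → v ≤ v₀ → 0 < J v
  hmono : ∀ v v', 0 < v → v ≤ v' → v' ≤ v₀ → J v ≤ J v'
  hJτ : ∀ v, 0 < v → v ≤ v₀ → ∀ x, J v ≤ τ x v
  hanti : ∀ v, 0 < v → v ≤ v₀ → ∀ x, τ (x + 1) v ≤ τ x v
  hlim : ∀ v, 0 < v → v ≤ v₀ → ∃ x, τ x v ≤ A * J v
  /-- zigzag -/
  hzig : ∀ v v', 0 < v → v ≤ v' → v' ≤ v₀ → ∀ x, τ (x + 2) v ≤ τ x v'
  /-- polynomial lower bound -/
  hlow : ∀ v, 0 < v → v ≤ v₀ → ∀ x : ℕ, c₀ * (2 : ℝ) ^ (-(C₀ * x)) ≤ τ x v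
  /-- sharp edge: a scale at which `J ((1+η) v)` is much larger than `τ` is irregular -/
  hsharp : ∀ v, 0 < v → (1 + η) * v ≤ v₀ → ∀ x y, τ y ((1 + η) * v) ≤ A * J ((1 + η) * v) →
    y + 2 ≤ x → j₀ ≤ x → A * J v < τ x v → M * τ x v ≤ J ((1 + η) * v) →
    C' * τ (x + j₀) v ≤ τ (x - j₀) v
  /-- no flat stretch before saturation -/
  hflat : ∀ v, 0 < v → (1 + η) * v ≤ v₀ → ∀ x y, τ y ((1 + η) * v) ≤ A * J ((1 + η) * v) →
    y + 2 ≤ x → A * J v < τ x v → (1 + δ) * τ (x + l) v ≤ τ x v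

section

variable {τ : ℕ → ℝ → ℝ} {J : ℝ → ℝ} {v₀ η A M C' δ C₀ c₀ : ℝ} {j₀ l : ℕ}

theorem Pot.anti (h : Pot τ J v₀ η A M C' δ C₀ c₀ j₀ l) {v : ℝ} (hv : 0 < v) (hv' : v ≤ v₀)
    {x y : ℕ} (hxy : x ≤ y) : τ y v ≤ τ x v := by
  induction hxy with
  | refl => exact le_rfl
  | step _ ih => exact (h.hanti v hv hv' _).trans ih

theorem Pot.C'_one (h : Pot τ J v₀ η A M C' δ C₀ c₀ j₀ l) : 1 ≤ C' := by
  refine le_trans ?_ h.hC'
  apply Real.one_le_rpow (by norm_num)
  have := h.hC₀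
  positivity

theorem Pot.logC' (h : Pot τ J v₀ η A M C' δ C₀ c₀ j₀ l) :
    (2 * j₀ : ℝ) * (C₀ + 1) * log 2 ≤ log C' := by
  have h1 : (0 : ℝ) < (2 : ℝ) ^ ((2 * j₀ : ℝ) * (C₀ + 1)) := Real.rpow_pos_of_pos (by norm_num) _
  have h2 := Real.log_le_log h1 h.hC'
  rwa [Real.log_rpow (by norm_num)] at h2

/-- One step of the potential argument. -/
theorem Pot.step (h : Pot τ J v₀ η A M C' δ C₀ c₀ j₀ l) {n₁ : ℕ} (hn₁ : A * M ≤ (1 + δ) ^ n₁)
    {v : ℝ} (hv : 0 < v) (hv' : (1 + η) * v ≤ v₀) {X Y : ℕ}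
    (hY : τ Y ((1 + η) * v) ≤ A * J ((1 + η) * v))
    (hX : ∀ x < X, A * J v < τ x v) :
    ∃ n : ℕ, X ≤ Y + (2 + l * n₁ + j₀) + 2 * j₀ * n ∧
      J v * C' ^ n ≤ J ((1 + η) * v) := by
  classical
  have hη := h.hη
  have hvv : v ≤ (1 + η) * v := by nlinarith
  have hvle : v ≤ v₀ := hvv.trans hv'
  have hv1 : 0 < (1 + η) * v := by positivity
  have hApos : 0 < A := lt_trans one_pos h.hA
  set s := Y + 2 with hs
  set m := l * n₁ with hm
  -- first phase
  have hph1 : ∀ n : ℕ, s + l * n < X ∨ n = 0 → (1 + δ) ^ n * τ (s + l * n) v ≤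
      A * J ((1 + η) * v) := by
    intro n
    induction n with
    | zero =>
      intro _
      simp only [pow_zero, one_mul, mul_zero, add_zero]
      exact (h.hzig v _ hv hvv hv' Y).trans hY
    | succ n ih =>
      intro hn
      have hlt : s + l * (n + 1) < X := by
        rcases hn with hn | hn
        · exact hn
        · omega
      have hlt' : s + l * n < X := by
        have : l * (n + 1) = l * n + l := by ring
        omega
      have h1 := ih (Or.inl hlt')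
      have h2 := h.hflat v hv hv' (s + l * n) Y hY (by omega) (hX _ hlt')
      have h3 : s + l * (n + 1) = s + l * n + l := by ring
      rw [h3, pow_succ, mul_assoc]
      have hδ := h.hδ
      calc (1 + δ) ^ n * ((1 + δ) * τ (s + l * n + l) v)
          ≤ (1 + δ) ^ n * τ (s + l * n) v := by gcongr
        _ ≤ _ := h1
  by_cases hcase : X ≤ s + m + j₀
  · refine ⟨0, by omega, ?_⟩
    simpa using h.hmono v _ hv hvv hv'
  rw [not_le] at hcase
  have hJ'pos : 0 < J ((1 + η) * v) := h.hJ _ hv1 hv'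
  have hstart : M * τ (s + m) v ≤ J ((1 + η) * v) := by
    have h1 := hph1 n₁ (Or.inl (by omega))
    rw [← hm] at h1
    have hτpos : 0 < τ (s + m) v := lt_of_lt_of_le (h.hJ v hv hvle) (h.hJτ v hv hvle _)
    have h2 : A * M * τ (s + m) v ≤ A * J ((1 + η) * v) :=
      (mul_le_mul_of_nonneg_right hn₁ hτpos.le).trans h1
    have h3 : A * (M * τ (s + m) v) ≤ A * J ((1 + η) * v) := by linarith [mul_assoc A M (τ (s + m) v)]
    exact le_of_mul_le_mul_left h3 hApos
  -- second phase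
  have hph2 : ∀ n : ℕ, (n = 0 ∨ s + m + j₀ + 2 * j₀ * (n - 1) < X) →
      C' ^ n * τ (s + m + 2 * j₀ * n) v ≤ τ (s + m) v := by
    intro n
    induction n with
    | zero => intro _; simp
    | succ n ih =>
      intro hn
      have hlt : s + m + j₀ + 2 * j₀ * n < X := by
        rcases hn with hn | hn
        · omega
        · simpa using hn
      have hprev : n = 0 ∨ s + m + j₀ + 2 * j₀ * (n - 1) < X := by
        rcases Nat.eq_zero_or_pos n with h0 | h0
        · exact Or.inl h0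
        · right
          have : 2 * j₀ * (n - 1) ≤ 2 * j₀ * n := Nat.mul_le_mul_left _ (by omega)
          omega
      have h1 := ih hprev
      set x := s + m + j₀ + 2 * j₀ * n with hx
      have hMx : M * τ x v ≤ J ((1 + η) * v) := by
        have : τ x v ≤ τ (s + m) v := h.anti hv hvle (by omega)
        exact (mul_le_mul_of_nonneg_left this (by linarith [h.hM])).trans hstart
      have h2 := h.hsharp v hv hv' x Y hY (by omega) (by omega) (hX x hlt) hMx
      have e1 : x + j₀ = s + m + 2 * j₀ * (n + 1) := by rw [hx]; ring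
      have e2 : x - j₀ = s + m + 2 * j₀ * n := by omega
      rw [e1, e2] at h2
      have hC1 : 0 ≤ C' := zero_le_one.trans h.C'_one
      rw [pow_succ, mul_assoc]
      calc C' ^ n * (C' * τ (s + m + 2 * j₀ * (n + 1)) v)
          ≤ C' ^ n * τ (s + m + 2 * j₀ * n) v := by gcongr
        _ ≤ _ := h1
  -- the number of falls
  obtain ⟨n, hn1, hn2⟩ : ∃ n : ℕ, X ≤ s + m + j₀ + 2 * j₀ * n ∧
      (n = 0 ∨ s + m + j₀ + 2 * j₀ * (n - 1) < X) := by
    have hex : ∃ n : ℕ, X ≤ s + m + j₀ + 2 * j₀ * n := by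
      refine ⟨X, ?_⟩
      have : X ≤ 2 * j₀ * X := Nat.le_mul_of_pos_left _ (by have := h.hj₀; omega)
      omega
    refine ⟨Nat.find hex, Nat.find_spec hex, ?_⟩
    rcases Nat.eq_zero_or_pos (Nat.find hex) with h0 | h0
    · exact Or.inl h0
    · right
      have := Nat.find_min hex (m := Nat.find hex - 1) (by omega)
      omega
  refine ⟨n, by omega, ?_⟩
  have h3 := hph2 n hn2
  have hC1 : 0 ≤ C' := zero_le_one.trans h.C'_one
  have h4 : J v ≤ τ (s + m + 2 * j₀ * n) v := h.hJτ v hv hvle _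
  have h5 : τ (s + m) v ≤ M * τ (s + m) v := by
    have hτpos : 0 < τ (s + m) v := lt_of_lt_of_le (h.hJ v hv hvle) (h.hJτ v hv hvle _)
    nlinarith [h.hM]
  calc J v * C' ^ n = C' ^ n * J v := mul_comm _ _
    _ ≤ C' ^ n * τ (s + m + 2 * j₀ * n) v := by gcongr
    _ ≤ τ (s + m) v := h3
    _ ≤ M * τ (s + m) v := h5
    _ ≤ _ := hstart

/-- **The potential argument**: `J` has a polynomial lower bound at `0`. -/
theorem Pot.poly (h : Pot τ J v₀ η A M C' δ C₀ c₀ j₀ l) :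
    ∃ c : ℝ, 0 < c ∧ ∃ K : ℝ, 0 < K ∧ ∀ v, 0 < v → v ≤ v₀ → c * v ^ K ≤ J v := by
  classical
  have hη := h.hη
  have hv₀ := h.hv₀
  have hApos : 0 < A := lt_trans one_pos h.hA
  have hl2 : 0 < log 2 := Real.log_pos (by norm_num)
  obtain ⟨n₁, hn₁⟩ : ∃ n₁ : ℕ, A * M ≤ (1 + δ) ^ n₁ := by
    obtain ⟨n, hn⟩ := pow_unbounded_of_one_lt (A * M) (by linarith [h.hδ] : (1 : ℝ) < 1 + δ)
    exact ⟨n, hn.le⟩
  set vs : ℕ → ℝ := fun i => v₀ / (1 + η) ^ i with hvs
  have hvspos : ∀ i, 0 < vs i := fun i => by simp only [hvs]; positivity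
  have hvsle : ∀ i, vs i ≤ v₀ := fun i => by
    simp only [hvs]
    exact div_le_self hv₀.le (one_le_pow₀ (by linarith))
  have hvssucc : ∀ i, (1 + η) * vs (i + 1) = vs i := fun i => by
    simp only [hvs, pow_succ]
    field_simp
  have hex : ∀ i, ∃ x, τ x (vs i) ≤ A * J (vs i) := fun i => h.hlim _ (hvspos i) (hvsle i)
  set X : ℕ → ℕ := fun i => Nat.find (hex i) with hXdef
  have hX1 : ∀ i, τ (X i) (vs i) ≤ A * J (vs i) := fun i => Nat.find_spec (hex i)
  have hX2 : ∀ i, ∀ x < X i, A * J (vs i) < τ x (vs i) := fun i x hx =>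
    not_le.mp (Nat.find_min (hex i) hx)
  set B : ℕ := 2 + l * n₁ + j₀ with hB
  have hJpos : ∀ i, 0 < J (vs i) := fun i => h.hJ _ (hvspos i) (hvsle i)
  set y : ℕ → ℝ := fun i => - log (J (vs i)) with hy
  -- one step
  have hstep : ∀ i, (C₀ + 1) * log 2 * ((X (i + 1) : ℝ) - X i - B) ≤ y (i + 1) - y i := by
    intro i
    have e := hvssucc i
    obtain ⟨n, h1, h2⟩ := h.step hn₁ (v := vs (i + 1)) (hvspos _) (by rw [e]; exact hvsle i)
      (X := X (i + 1)) (Y := X i) (by rw [e]; exact hX1 i) (hX2 (i + 1))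
    rw [e] at h2
    have hC'pos : 0 < C' := lt_of_lt_of_le one_pos h.C'_one
    have h3 : log (J (vs (i + 1))) + n * log C' ≤ log (J (vs i)) := by
      have := Real.log_le_log (mul_pos (hJpos (i + 1)) (pow_pos hC'pos n)) h2
      rwa [Real.log_mul (hJpos _).ne' (pow_pos hC'pos n).ne', Real.log_pow] at this
    have h4 : (X (i + 1) : ℝ) ≤ X i + B + 2 * j₀ * n := by exact_mod_cast h1
    have h5 := h.logC'
    have hC₀ := h.hC₀
    have h6 : (C₀ + 1) * log 2 * ((X (i + 1) : ℝ) - X i - B) ≤ (C₀ + 1) * log 2 * (2 * j₀ * n) := by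
      apply mul_le_mul_of_nonneg_left (by linarith) (by positivity)
    have h7 : (C₀ + 1) * log 2 * (2 * j₀ * n) ≤ n * log C' := by
      calc (C₀ + 1) * log 2 * (2 * j₀ * n) = n * ((2 * j₀ : ℝ) * (C₀ + 1) * log 2) := by ring
        _ ≤ n * log C' := by gcongr
    simp only [hy]
    linarith
  have hsum : ∀ i, (C₀ + 1) * log 2 * ((X i : ℝ) - X 0 - B * i) ≤ y i - y 0 := by
    intro i
    induction i with
    | zero => simp
    | succ i ih =>
      have := hstep i
      push_cast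
      nlinarith
  have hup : ∀ i, y i ≤ C₀ * log 2 * X i + log (A / c₀) := by
    intro i
    have h1 := (h.hlow _ (hvspos i) (hvsle i) (X i)).trans (hX1 i)
    have hc₀ := h.hc₀
    have h2 := Real.log_le_log (by positivity) h1
    rw [Real.log_mul hc₀.ne' (Real.rpow_pos_of_pos (by norm_num) _).ne',
      Real.log_rpow (by norm_num), Real.log_mul hApos.ne' (hJpos i).ne'] at h2
    simp only [hy]
    rw [Real.log_div hApos.ne' hc₀.ne']
    linarith
  -- affine bound for `y`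
  obtain ⟨a, b, ha, hb, hab⟩ : ∃ a b : ℝ, 0 ≤ a ∧ 0 < b ∧ ∀ i : ℕ, y i ≤ a + b * i := by
    have hC₀ := h.hC₀
    set D := log (A / c₀) with hD
    refine ⟨|C₀ * ((C₀ + 1) * log 2 * X 0 + D - y 0) + D|,
      C₀ * ((C₀ + 1) * log 2 * B) + 1, abs_nonneg _, by positivity, ?_⟩
    intro i
    have h1 := hsum i
    have h2 := hup i
    have h3 : log 2 * X i ≤ (C₀ + 1) * log 2 * (X 0 + B * i) + D - y 0 := by nlinarith
    have h4 : C₀ * (log 2 * X i) ≤ C₀ * ((C₀ + 1) * log 2 * (X 0 + B * i) + D - y 0) :=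
      mul_le_mul_of_nonneg_left h3 hC₀
    have h5 := le_abs_self (C₀ * ((C₀ + 1) * log 2 * X 0 + D - y 0) + D)
    have h6 : (0 : ℝ) ≤ i := Nat.cast_nonneg i
    nlinarith
  -- conclusion
  have hlη : 0 < log (1 + η) := Real.log_pos (by linarith)
  refine ⟨exp (-(a + b)) / v₀ ^ (b / log (1 + η)), by positivity, b / log (1 + η), by positivity, ?_⟩
  intro v hv hvv
  -- the index
  obtain ⟨i, hi1, hi2⟩ : ∃ i : ℕ, vs (i + 1) ≤ v ∧ v ≤ vs i := by
    have hex2 : ∃ i : ℕ, vs (i + 1) ≤ v := by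
      obtain ⟨i, hi⟩ := pow_unbounded_of_one_lt (v₀ / v) (by linarith : (1 : ℝ) < 1 + η)
      refine ⟨i, ?_⟩
      simp only [hvs]
      rw [div_le_iff₀ (by positivity)]
      have h1 : v₀ < (1 + η) ^ i * v := by rwa [div_lt_iff₀ hv] at hi
      have h2 : (1 + η) ^ i ≤ (1 + η) ^ (i + 1) := pow_le_pow_right₀ (by linarith) (by omega)
      nlinarith
    refine ⟨Nat.find hex2, Nat.find_spec hex2, ?_⟩
    rcases Nat.eq_zero_or_pos (Nat.find hex2) with h0 | h0
    · rw [h0]; simpa [hvs] using hvv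
    · have := Nat.find_min hex2 (m := Nat.find hex2 - 1) (by omega)
      rw [not_le] at this
      have e : Nat.find hex2 - 1 + 1 = Nat.find hex2 := by omega
      rw [e] at this
      exact this.le
  have h1 : J (vs (i + 1)) ≤ J v := h.hmono _ _ (hvspos _) hi1 hvv
  have h2 : exp (-(a + b * (i + 1))) ≤ J (vs (i + 1)) := by
    have := hab (i + 1)
    simp only [hy] at this
    push_cast at this
    rw [← Real.le_log_iff_exp_le (hJpos _)]
    linarith
  -- `i log (1+η) ≤ log (v₀ / v)`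
  have h3 : (i : ℝ) * log (1 + η) ≤ log (v₀ / v) := by
    have h4 : (1 + η) ^ i ≤ v₀ / v := by
      rw [le_div_iff₀ hv]
      have := hi2
      simp only [hvs] at this
      rwa [le_div_iff₀ (by positivity), mul_comm] at this
    have := Real.log_le_log (by positivity) h4
    rwa [Real.log_pow] at this
  have h5 : exp (-(a + b)) / v₀ ^ (b / log (1 + η)) * v ^ (b / log (1 + η)) ≤
      exp (-(a + b * (i + 1))) := by
    have e1 : exp (-(a + b)) / v₀ ^ (b / log (1 + η)) * v ^ (b / log (1 + η)) =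
        exp (-(a + b) - (b / log (1 + η)) * log (v₀ / v)) := by
      rw [Real.rpow_def_of_pos hv₀, Real.rpow_def_of_pos hv, ← Real.exp_sub, ← Real.exp_add,
        Real.log_div hv₀.ne' hv.ne']
      congr 1
      ring
    rw [e1]
    apply Real.exp_le_exp.mpr
    have h6 : b / log (1 + η) * log (v₀ / v) ≥ b * i := by
      have : b / log (1 + η) * (i * log (1 + η)) ≤ b / log (1 + η) * log (v₀ / v) :=
        mul_le_mul_of_nonneg_left h3 (by positivity)
      have e2 : b / log (1 + η) * (i * log (1 + η)) = b * i := by field_simp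
      linarith
    linarith
  linarith

end

end Pool.Agent.Qs61
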